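import Pool.Agent.W669.HD.Stm5

/-!
# Three factors living on five vectors vanish (part VAN5 of project HD5)
-/

set_option autoImplicit false

namespace Pool.Agent.W696.HD.VAN5

open Pool.Agent.W666.GB Pool.Agent.W669.HD Finset

variable {m : ℕ}

theorem sn_swap {P : Type*} [Fintype P] [DecidableEq P] {x y : P} (h : x ≠ y) :
    sn (Equiv.swap x y) = -1 := by
  simp [sn, Equiv.Perm.sign_swap h]

/-- Six slots, five values. -/
theorem core (β : Fin 3 → Fin m) (hβ : Function.Injective β) (a : Fin m × Bool → Fin 5 → ℝ)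
    (F : Fin 3 × Bool → Fin 5) (R : Equiv.Perm (Fin m × Bool) → ℝ)
    (hR : ∀ σ (y z : Fin 3 × Bool),
      R (σ * Equiv.swap (β y.1, y.2) (β z.1, z.2)) = R σ) :
    ∑ σ : Equiv.Perm (Fin m × Bool), (∏ y : Fin 3 × Bool, a (σ (β y.1, y.2)) (F y)) *
      (sn σ * R σ) = 0 := by
  classical
  let x : Fin 3 × Bool → Fin m × Bool := fun y => (β y.1, y.2)
  have hx : Function.Injective x := by
    intro y z h
    have h1 : β y.1 = β z.1 := congrArg (fun w : Fin m × Bool => w.1) h
    have h2 : y.2 = z.2 := congrArg (fun w : Fin m × Bool => w.2) h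
    exact Prod.ext (hβ h1) h2
  have hF : ¬ Function.Injective F := by
    intro h
    have h1 := Fintype.card_le_of_injective F h
    simp at h1
  obtain ⟨i, j, hij, hne⟩ := Function.not_injective_iff.1 hF
  have hxne : x i ≠ x j := fun h => hne (hx h)
  refine Finset.sum_involution (fun σ _ => σ * Equiv.swap (x i) (x j)) ?_ ?_ ?_ ?_
  · intro σ _
    have h1 : ∏ y : Fin 3 × Bool, a ((σ * Equiv.swap (x i) (x j)) (x y)) (F y) =
        ∏ y : Fin 3 × Bool, a (σ (x y)) (F y) := by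
      rw [← Equiv.prod_comp (Equiv.swap i j) (fun y => a (σ (x y)) (F y))]
      refine Finset.prod_congr rfl fun y _ => ?_
      rw [Equiv.Perm.mul_apply, hx.swap_apply]
      have h2 : F (Equiv.swap i j y) = F y := by
        by_cases h3 : y = i
        · rw [h3, Equiv.swap_apply_left, hij]
        · by_cases h4 : y = j
          · rw [h4, Equiv.swap_apply_right, hij]
          · rw [Equiv.swap_apply_of_ne_of_ne h3 h4]
      rw [h2]
    have h2 : R (σ * Equiv.swap (x i) (x j)) = R σ := hR σ i j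
    change (∏ y : Fin 3 × Bool, a (σ (x y)) (F y)) * (sn σ * R σ) +
      (∏ y : Fin 3 × Bool, a ((σ * Equiv.swap (x i) (x j)) (x y)) (F y)) *
        (sn (σ * Equiv.swap (x i) (x j)) * R (σ * Equiv.swap (x i) (x j))) = 0
    rw [h1, h2, sn_mul, sn_swap hxne]
    ring
  · intro σ _ _ h
    have h1 : Equiv.swap (x i) (x j) = 1 := by
      have h2 : σ * Equiv.swap (x i) (x j) = σ * 1 := by rw [mul_one]; exact h
      exact mul_left_cancel h2
    exact hxne (Equiv.swap_eq_one_iff.1 h1)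
  · intro σ _
    exact Finset.mem_univ _
  · intro σ _
    change σ * Equiv.swap (x i) (x j) * Equiv.swap (x i) (x j) = σ
    rw [mul_assoc, Equiv.swap_mul_self, mul_one]

theorem step {Q : Type*} [Fintype Q] (f g : Q → ℝ) (u v : Q → Fin 5 → ℝ)
    (M : Fin 5 → Fin 5 → ℝ) (hf : ∀ σ, f σ = ∑ p, ∑ q, u σ p * v σ q * M p q)
    (h : ∀ p q, ∑ σ, u σ p * (v σ q * g σ) = 0) : ∑ σ, f σ * g σ = 0 := by
  have h1 : ∀ σ, f σ * g σ = ∑ p, ∑ q, M p q * (u σ p * (v σ q * g σ)) := by
    intro σ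
    rw [hf, Finset.sum_mul]
    refine Finset.sum_congr rfl fun p _ => ?_
    rw [Finset.sum_mul]
    refine Finset.sum_congr rfl fun q _ => ?_
    ring
  rw [Finset.sum_congr rfl fun σ _ => h1 σ, Finset.sum_comm]
  refine Finset.sum_eq_zero fun p _ => ?_
  rw [Finset.sum_comm]
  refine Finset.sum_eq_zero fun q _ => ?_
  rw [← Finset.mul_sum, h, mul_zero]

theorem main : S_VAN5 := by
  classical
  intro m C a K₀ K₁ K₂ b₀ b₁ b₂ h10 h20 h21 h0 h1 h2
  unfold gm
  rw [Finset.sum_comm]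
  refine Finset.sum_eq_zero fun τ _ => ?_
  let β : Fin 3 → Fin m := ![b₀, b₁, b₂]
  have hβ : Function.Injective β := by
    intro i j h
    fin_cases i <;> fin_cases j <;> simp_all [β, eq_comm]
  let g : Equiv.Perm (Fin m × Bool) → Fin m → ℝ := fun σ b =>
    C b (σ (b, false)) (σ (b, true)) (τ (b, false)) (τ (b, true))
  let R : Equiv.Perm (Fin m × Bool) → ℝ := fun σ =>
    ∏ b ∈ ((univ.erase b₀).erase b₁).erase b₂, g σ b
  have hprod : ∀ σ, ∏ b, g σ b = g σ b₀ * (g σ b₁ * (g σ b₂ * R σ)) := by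
    intro σ
    rw [Finset.mul_prod_erase _ _ (by simp [h20, h21]), Finset.mul_prod_erase _ _ (by simp [h10]),
      Finset.mul_prod_erase _ _ (by simp)]
  have hM : ∀ (b : Fin m) (K : Q5), Fac5 a (C b) K → ∃ M : Fin 5 → Fin 5 → ℝ, ∀ σ,
      g σ b = ∑ p, ∑ q, a (σ (b, false)) p * a (σ (b, true)) q * M p q := by
    intro b K hK
    refine ⟨fun p q => ∑ r, ∑ s, a (τ (b, false)) r * a (τ (b, true)) s * K p q r s,
      fun σ => ?_⟩
    change C b (σ (b, false)) (σ (b, true)) (τ (b, false)) (τ (b, true)) = _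
    rw [hK]
    refine Finset.sum_congr rfl fun p _ => Finset.sum_congr rfl fun q _ => ?_
    rw [Finset.mul_sum]
    refine Finset.sum_congr rfl fun r _ => ?_
    rw [Finset.mul_sum]
    refine Finset.sum_congr rfl fun s _ => ?_
    ring
  obtain ⟨M0, hM0⟩ := hM b₀ K₀ h0
  obtain ⟨M1, hM1⟩ := hM b₁ K₁ h1
  obtain ⟨M2, hM2⟩ := hM b₂ K₂ h2
  have hR : ∀ σ (y z : Fin 3 × Bool),
      R (σ * Equiv.swap (β y.1, y.2) (β z.1, z.2)) = R σ := by
    intro σ y z
    refine Finset.prod_congr rfl fun b hb => ?_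
    have hb2 : b ≠ b₂ := Finset.ne_of_mem_erase hb
    have hb1 : b ≠ b₁ := Finset.ne_of_mem_erase (Finset.mem_of_mem_erase hb)
    have hb0 : b ≠ b₀ :=
      Finset.ne_of_mem_erase (Finset.mem_of_mem_erase (Finset.mem_of_mem_erase hb))
    have hβb : ∀ i, b ≠ β i := by
      intro i
      fin_cases i
      · exact hb0
      · exact hb1
      · exact hb2
    have h3 : ∀ c : Bool, (σ * Equiv.swap (β y.1, y.2) (β z.1, z.2)) (b, c) = σ (b, c) := by
      intro c
      rw [Equiv.Perm.mul_apply, Equiv.swap_apply_of_ne_of_ne]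
      · exact fun h => hβb _ (congrArg Prod.fst h)
      · exact fun h => hβb _ (congrArg Prod.fst h)
    change C b _ _ _ _ = C b _ _ _ _
    rw [h3, h3]
  have key : ∑ σ : Equiv.Perm (Fin m × Bool), g σ b₀ * (g σ b₁ * (g σ b₂ * (sn σ * R σ))) = 0 := by
    refine step _ _ _ _ M0 hM0 fun p q => ?_
    have e1 : ∀ σ : Equiv.Perm (Fin m × Bool), a (σ (b₀, false)) p * (a (σ (b₀, true)) q *
        (g σ b₁ * (g σ b₂ * (sn σ * R σ)))) = g σ b₁ * (a (σ (b₀, false)) p *
        (a (σ (b₀, true)) q * (g σ b₂ * (sn σ * R σ)))) := fun σ => by ring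
    rw [Finset.sum_congr rfl fun σ _ => e1 σ]
    refine step _ _ _ _ M1 hM1 fun p' q' => ?_
    have e2 : ∀ σ : Equiv.Perm (Fin m × Bool), a (σ (b₁, false)) p' * (a (σ (b₁, true)) q' *
        (a (σ (b₀, false)) p * (a (σ (b₀, true)) q * (g σ b₂ * (sn σ * R σ))))) =
        g σ b₂ * (a (σ (b₁, false)) p' * (a (σ (b₁, true)) q' *
        (a (σ (b₀, false)) p * (a (σ (b₀, true)) q * (sn σ * R σ))))) := fun σ => by ring
    rw [Finset.sum_congr rfl fun σ _ => e2 σ]
    refine step _ _ _ _ M2 hM2 fun p'' q'' => ?_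
    have h3 := core β hβ a (fun y => if y.2 then ![q, q', q''] y.1 else ![p, p', p''] y.1) R hR
    rw [← h3]
    refine Finset.sum_congr rfl fun σ _ => ?_
    rw [Fintype.prod_prod_type, Fin.prod_univ_three]
    simp only [Fintype.prod_bool, if_true, Bool.false_eq_true, if_false]
    change _ = a (σ (b₀, true)) q * a (σ (b₀, false)) p * (a (σ (b₁, true)) q' *
      a (σ (b₁, false)) p') * (a (σ (b₂, true)) q'' * a (σ (b₂, false)) p'') * (sn σ * R σ)
    ring
  have h3 : ∀ σ : Equiv.Perm (Fin m × Bool), sn σ * sn τ * ∏ b, C b (σ (b, false)) (σ (b, true))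
      (τ (b, false)) (τ (b, true)) = sn τ * (g σ b₀ * (g σ b₁ * (g σ b₂ * (sn σ * R σ)))) := by
    intro σ
    have h4 := hprod σ
    change ∏ b, C b (σ (b, false)) (σ (b, true)) (τ (b, false)) (τ (b, true)) = _ at h4
    rw [h4]
    ring
  rw [Finset.sum_congr rfl fun σ _ => h3 σ, ← Finset.mul_sum, key, mul_zero]

end Pool.Agent.W696.HD.VAN5
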